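import Pool.Agent.Helper23_TS.Stmts

/-!
# ZO: an element divisible by `a` after multiplication by powers of `y + h` and of `y`
-/

open Polynomial

namespace Pool.Agent.TS.H86

open H12UBI H58UB

theorem dvd_iff_map {A : Type*} [CommRing A] (a : A) (p : A[X]) :
    C a ∣ p ↔ p.map (Ideal.Quotient.mk (Ideal.span {a})) = 0 := by
  rw [Polynomial.C_dvd_iff_dvd_coeff, Polynomial.ext_iff]
  refine forall_congr' fun i => ?_
  rw [Polynomial.coeff_map, Polynomial.coeff_zero, Ideal.Quotient.eq_zero_iff_mem,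
    Ideal.mem_span_singleton]

theorem monic_cancel {A : Type*} [CommRing A] {h : A[X]} (hm : h.Monic) (a : A) (M : ℕ)
    {p : A[X]} (hd : C a ∣ p * h ^ M) : C a ∣ p := by
  rw [dvd_iff_map] at hd ⊢
  rw [Polynomial.map_mul, Polynomial.map_pow] at hd
  have h1 : ((h.map (Ideal.Quotient.mk (Ideal.span {a}))) ^ M).Monic := (hm.map _).pow M
  exact (h1.mul_left_eq_zero_iff).1 hd

theorem zo : ZoStmt := by
  intro A _ h r hm a m n x z z' h1 h2
  have key : ∃ w, x * algebraMap A[X] (CR A h r) (h ^ (m + n)) = cst h r a * w := by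
    have hI : (yh h r + -yy h r) ^ (m + n) ∈
        (Submodule.colon (Ideal.span {cst h r a} : Ideal (CR A h r)) {x}) := by
      refine Ideal.add_pow_mem_of_pow_mem_of_le (m := m) (n := n) _ ?_ ?_ (by omega)
      · rw [Submodule.mem_colon_singleton, smul_eq_mul, mul_comm, h1]
        exact Ideal.mul_mem_right _ _ (Ideal.mem_span_singleton_self _)
      · rw [Submodule.mem_colon_singleton, smul_eq_mul, neg_pow, mul_assoc, mul_comm _ x, h2]
        exact Ideal.mul_mem_left _ _ (Ideal.mul_mem_right _ _ (Ideal.mem_span_singleton_self _))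
    rw [Submodule.mem_colon_singleton, smul_eq_mul, Ideal.mem_span_singleton'] at hI
    obtain ⟨w, hw⟩ := hI
    refine ⟨w, ?_⟩
    have e : yh h r + -yy h r = algebraMap A[X] (CR A h r) h := by
      refine QuadraticAlgebra.ext ?_ ?_
      · simp [yh, yy]
      · simp [yh, yy]
    rw [e, ← map_pow] at hw
    rw [mul_comm, ← hw, mul_comm]
  obtain ⟨w, hw⟩ := key
  have a1 : C a ∣ x.re * h ^ (m + n) := by
    refine ⟨w.re, ?_⟩
    have := congrArg QuadraticAlgebra.re hw
    rw [mul_comm x, ← Algebra.smul_def] at this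
    simpa [cst, mul_comm] using this
  have a2 : C a ∣ x.im * h ^ (m + n) := by
    refine ⟨w.im, ?_⟩
    have := congrArg QuadraticAlgebra.im hw
    rw [mul_comm x, ← Algebra.smul_def] at this
    simpa [cst, mul_comm] using this
  obtain ⟨p, hp⟩ := monic_cancel hm a _ a1
  obtain ⟨q, hq⟩ := monic_cancel hm a _ a2
  refine ⟨⟨p, q⟩, ?_⟩
  refine QuadraticAlgebra.ext ?_ ?_
  · simp [hp]
  · simp [hq]

end Pool.Agent.TS.H86
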